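import Mathlib
import Pool.Agent.W785.EN.Stms

/-!
The travelling drop is a solution of the elastic flow of networks.
-/

set_option autoImplicit false

open Set Filter Topology
open scoped ContDiff

namespace Pool.Agent.W753.EN.Build

open Pool.Agent.W785.EN

/-! ### curves which are parametrised proportionally to arclength -/

lemma mk_deriv {a b : ℝ → ℝ} {a' b' r : ℝ} {s : Set ℝ} (ha : HasDerivWithinAt a a' s r)
    (hb : HasDerivWithinAt b b' s r) :
    HasDerivWithinAt (fun r => (⟨a r, b r⟩ : ℂ)) ⟨a', b'⟩ s r := by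
  have h := ha.ofReal_comp.add (hb.ofReal_comp.mul_const Complex.I)
  rw [Complex.mk_eq_add_mul_I]
  refine h.congr_of_eventuallyEq ?_ ?_
  · filter_upwards with y
    rw [Complex.mk_eq_add_mul_I]; rfl
  · rw [Complex.mk_eq_add_mul_I]; rfl

/-- a curve with angle `φ` and curvature `k`, `k1` and `k2` are the derivatives of `k` -/
structure Par (γ : ℝ → ℂ) (lam : ℝ) (φ k k1 k2 : ℝ → ℝ) : Prop where
  pos : 0 < lam
  dγ : ∀ r ∈ Icc (0 : ℝ) 1, HasDerivWithinAt γ ⟨lam * Real.cos (φ r), lam * Real.sin (φ r)⟩
    (Icc 0 1) r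
  dφ : ∀ r ∈ Icc (0 : ℝ) 1, HasDerivWithinAt φ (lam * k r) (Icc 0 1) r
  dk : ∀ r ∈ Icc (0 : ℝ) 1, HasDerivWithinAt k (lam * k1 r) (Icc 0 1) r
  dk1 : ∀ r ∈ Icc (0 : ℝ) 1, HasDerivWithinAt k1 (lam * k2 r) (Icc 0 1) r

lemma uniq {r : ℝ} (hr : r ∈ Icc (0 : ℝ) 1) : UniqueDiffWithinAt ℝ (Icc (0 : ℝ) 1) r :=
  uniqueDiffOn_Icc zero_lt_one r hr

namespace Par

variable {γ : ℝ → ℂ} {lam : ℝ} {φ k k1 k2 : ℝ → ℝ} (h : Par γ lam φ k k1 k2) {r : ℝ}
  (hr : r ∈ Icc (0 : ℝ) 1)

include h hr

lemma deriv_eq : derivWithin γ (Icc 0 1) r = ⟨lam * Real.cos (φ r), lam * Real.sin (φ r)⟩ :=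
  (h.dγ r hr).derivWithin (uniq hr)

lemma norm_eq : ‖derivWithin γ (Icc 0 1) r‖ = lam := by
  rw [h.deriv_eq hr, Complex.norm_def, Complex.normSq_mk]
  have : lam * Real.cos (φ r) * (lam * Real.cos (φ r)) + lam * Real.sin (φ r) *
      (lam * Real.sin (φ r)) = lam ^ 2 := by
    have := Real.sin_sq_add_cos_sq (φ r)
    linear_combination lam ^ 2 * this
  rw [this]
  exact Real.sqrt_sq h.pos.le

lemma deriv_ne : derivWithin γ (Icc 0 1) r ≠ 0 := by
  intro h0
  have := h.norm_eq hr
  rw [h0, norm_zero] at this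
  exact h.pos.ne this

lemma tau_eq : tau γ r = ⟨Real.cos (φ r), Real.sin (φ r)⟩ := by
  unfold tau dS
  rw [h.norm_eq hr, h.deriv_eq hr]
  have := h.pos.ne'
  apply Complex.ext
  · rw [Complex.smul_re, smul_eq_mul]; field_simp
  · rw [Complex.smul_im, smul_eq_mul]; field_simp

lemma nu_eq : nu γ r = ⟨-Real.sin (φ r), Real.cos (φ r)⟩ := by
  unfold nu
  rw [h.tau_eq hr]
  apply Complex.ext
  · simp
  · simp

lemma dtau_eq : dS γ (tau γ) r = ⟨-(Real.sin (φ r)) * k r, Real.cos (φ r) * k r⟩ := by
  have hd : HasDerivWithinAt (fun r => (⟨Real.cos (φ r), Real.sin (φ r)⟩ : ℂ))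
      ⟨-(Real.sin (φ r)) * (lam * k r), Real.cos (φ r) * (lam * k r)⟩ (Icc 0 1) r :=
    mk_deriv (h.dφ r hr).cos (h.dφ r hr).sin
  have e : derivWithin (tau γ) (Icc 0 1) r =
      ⟨-(Real.sin (φ r)) * (lam * k r), Real.cos (φ r) * (lam * k r)⟩ := by
    rw [derivWithin_congr (fun y hy => h.tau_eq hy) (h.tau_eq hr)]
    exact hd.derivWithin (uniq hr)
  unfold dS
  rw [h.norm_eq hr, e]
  have := h.pos.ne'
  apply Complex.ext
  · rw [Complex.smul_re, smul_eq_mul]; field_simp
  · rw [Complex.smul_im, smul_eq_mul]; field_simp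

lemma curv_eq : curv γ r = k r := by
  unfold curv dot
  rw [h.dtau_eq hr, h.nu_eq hr]
  have := Real.sin_sq_add_cos_sq (φ r)
  simp only
  linear_combination k r * this

lemma dcurv_eq : dS γ (curv γ) r = k1 r := by
  have e : derivWithin (curv γ) (Icc 0 1) r = lam * k1 r := by
    rw [derivWithin_congr (fun y hy => h.curv_eq hy) (h.curv_eq hr)]
    exact (h.dk r hr).derivWithin (uniq hr)
  unfold dS
  rw [h.norm_eq hr, e, smul_eq_mul]
  have := h.pos.ne'
  field_simp

lemma ddcurv_eq : dS γ (dS γ (curv γ)) r = k2 r := by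
  have e : derivWithin (dS γ (curv γ)) (Icc 0 1) r = lam * k2 r := by
    rw [derivWithin_congr (fun y hy => h.dcurv_eq hy) (h.dcurv_eq hr)]
    exact (h.dk1 r hr).derivWithin (uniq hr)
  rw [dS, h.norm_eq hr, e, smul_eq_mul]
  have := h.pos.ne'
  field_simp

lemma stress_eq (μ : ℝ) : stress μ γ r = ⟨-(2 * k1 r) * Real.sin (φ r) +
    (k r ^ 2 - μ) * Real.cos (φ r), 2 * k1 r * Real.cos (φ r) +
    (k r ^ 2 - μ) * Real.sin (φ r)⟩ := by
  unfold stress
  rw [h.dcurv_eq hr, h.curv_eq hr, h.nu_eq hr, h.tau_eq hr]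
  apply Complex.ext
  · rw [Complex.add_re, Complex.smul_re, Complex.smul_re, smul_eq_mul, smul_eq_mul]
    simp only
    ring
  · rw [Complex.add_im, Complex.smul_im, Complex.smul_im, smul_eq_mul, smul_eq_mul]

end Par

/-! ### the loop -/

section

variable {c μ S l T : ℝ} {φ k W Z x y : ℝ → ℝ}

lemma abs_le_S {l S : ℝ} (h0 : 0 < l) (h1 : l < S) {r : ℝ} (hr : r ∈ Icc (0 : ℝ) 1) :
    |l * (2 * r - 1)| ≤ S := by
  obtain ⟨a, b⟩ := hr
  rw [abs_le]
  constructor <;> nlinarith

lemma comp_lin {f : ℝ → ℝ} {f' l r : ℝ} (h : HasDerivAt f f' (l * (2 * r - 1))) :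
    HasDerivWithinAt (fun r => f (l * (2 * r - 1))) (2 * l * f') (Icc 0 1) r := by
  have h2 : HasDerivAt (fun r : ℝ => l * (2 * r - 1)) (l * 2) r := by
    have := (((hasDerivAt_id r).const_mul 2).sub_const 1).const_mul l
    simpa using this
  have := (h.comp r h2).hasDerivWithinAt (s := Icc 0 1)
  refine this.congr_deriv ?_
  ring

lemma par_loop (D : Drop c μ S l φ k W Z x y) (t : ℝ) :
    Par (dropCurve c T l x y 0 t) (2 * l) (fun r => φ (l * (2 * r - 1)))
      (fun r => k (l * (2 * r - 1)))
      (fun r => -(Z (l * (2 * r - 1)) * Real.sin (φ (l * (2 * r - 1))) +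
        W (l * (2 * r - 1)) * Real.cos (φ (l * (2 * r - 1)))) / 2)
      (fun r => -(c * Real.cos (φ (l * (2 * r - 1))) + k (l * (2 * r - 1)) *
        (Z (l * (2 * r - 1)) * Real.cos (φ (l * (2 * r - 1))) -
          W (l * (2 * r - 1)) * Real.sin (φ (l * (2 * r - 1))))) / 2) where
  pos := by linarith [D.l_pos]
  dγ := by
    intro r hr
    have hs := abs_le_S D.l_pos D.l_lt hr
    have e : dropCurve c T l x y 0 t = fun r => (⟨x (l * (2 * r - 1)),
        y (l * (2 * r - 1)) + c * t⟩ : ℂ) := by
      funext r; simp [dropCurve]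
    rw [e]
    exact mk_deriv (comp_lin (D.sol.dx _ hs)) ((comp_lin (D.sol.dy _ hs)).add_const _)
  dφ := by
    intro r hr
    have hs := abs_le_S D.l_pos D.l_lt hr
    exact comp_lin (D.sol.dφ _ hs)
  dk := by
    intro r hr
    have hs := abs_le_S D.l_pos D.l_lt hr
    exact comp_lin (D.sol.dk _ hs)
  dk1 := by
    intro r hr
    have hs := abs_le_S D.l_pos D.l_lt hr
    set s := l * (2 * r - 1) with hsdef
    have hφ := D.sol.dφ s hs
    have h1 := (D.sol.dZ s hs).mul hφ.sin
    have h2 := (D.sol.dW s hs).mul hφ.cos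
    have h3 := ((h1.add h2).neg).div_const 2
    have h4 : HasDerivAt (fun s => -(Z s * Real.sin (φ s) + W s * Real.cos (φ s)) / 2)
        (-(c * Real.cos (φ s) + k s * (Z s * Real.cos (φ s) - W s * Real.sin (φ s))) / 2) s := by
      refine h3.congr_deriv ?_
      have := Real.sin_sq_add_cos_sq (φ s)
      linear_combination (-(c * Real.cos (φ s)) / 2) * this
    exact comp_lin h4

/-- the segment -/
lemma par_seg (hc : 0 < c) {t : ℝ} (ht : t < T) :
    Par (dropCurve c T l x y 1 t) (c * (T - t)) (fun _ => Real.pi / 2)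
      (fun _ => 0) (fun _ => 0) (fun _ => 0) where
  pos := mul_pos hc (by linarith)
  dγ := by
    intro r _
    have e : dropCurve c T l x y 1 t = fun r => (⟨x l, y l + c * t + r * (c * (T - t))⟩ : ℂ) := by
      funext r; simp [dropCurve]
    rw [e]
    apply mk_deriv
    · rw [Real.cos_pi_div_two, mul_zero]
      exact hasDerivWithinAt_const _ _ _
    · rw [Real.sin_pi_div_two, mul_one]
      have := (((hasDerivAt_id r).mul_const (c * (T - t))).const_add (y l + c * t))
      refine (this.hasDerivWithinAt).congr_deriv ?_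
      ring
  dφ := by
    intro r _
    rw [mul_zero]; exact hasDerivWithinAt_const _ _ _
  dk := by
    intro r _
    rw [mul_zero]; exact hasDerivWithinAt_const _ _ _
  dk1 := by
    intro r _
    rw [mul_zero]; exact hasDerivWithinAt_const _ _ _

/-- the energy identity -/
lemma energy (hS : 0 < S) (D : Sol c μ S φ k W Z x y) {s : ℝ} (hs : |s| ≤ S) :
    k s ^ 2 = μ + Z s * Real.cos (φ s) - W s * Real.sin (φ s) := by
  set F : ℝ → ℝ := fun s => k s ^ 2 - (Z s * Real.cos (φ s) - W s * Real.sin (φ s)) with hF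
  have hd : ∀ u ∈ Icc (-S) S, HasDerivAt F 0 u := by
    intro u hu
    have hu2 : |u| ≤ S := abs_le.2 hu
    have hφ := D.dφ u hu2
    have h1 := (D.dk u hu2).pow 2
    have h2 := (D.dZ u hu2).mul hφ.cos
    have h3 := (D.dW u hu2).mul hφ.sin
    have h4 := h1.sub (h2.sub h3)
    refine h4.congr_deriv ?_
    simp only [Nat.cast_ofNat, Nat.add_one_sub_one, pow_one]
    ring
  have hconst : ∀ u ∈ Icc (-S) S, ∀ v ∈ Icc (-S) S, F u = F v := by
    intro u hu v hv
    have := (convex_Icc (-S) S).norm_image_sub_le_of_norm_hasDerivWithin_le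
      (f := F) (f' := fun _ => 0) (C := 0)
      (fun x hx => (hd x hx).hasDerivWithinAt) (fun _ _ => by simp) hv hu
    rw [zero_mul] at this
    exact sub_eq_zero.1 (norm_eq_zero.1 (le_antisymm this (norm_nonneg _)))
  have h0 := hconst s (abs_le.1 hs) 0 ⟨by linarith, by linarith⟩
  have h1 : F 0 = μ := by
    simp only [hF]
    rw [D.k0, D.Z0, D.φ0, D.W0, Real.cos_zero]; ring
  rw [h1] at h0
  simp only [hF] at h0
  linarith

end

/-! ### the network -/

lemma vert_zero {i b : Fin 2} (h : lolly.vert i b = 0) : (i = 0 ∧ b = 0) ∨ (i = 0 ∧ b = 1) ∨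
    (i = 1 ∧ b = 0) := by
  fin_cases i <;> fin_cases b <;> simp [lolly] at h ⊢

lemma vert_ne {i b : Fin 2} (h : lolly.vert i b ≠ 0) : i = 1 ∧ b = 1 := by
  fin_cases i <;> fin_cases b <;> simp [lolly] at h ⊢

lemma kind_zero : lolly.kind 0 = Kind.junction := by simp [lolly]

lemma kind_one : lolly.kind 1 = Kind.navier := by simp [lolly]

lemma order_zero : lolly.order 0 = 3 := by
  unfold NetType.order
  decide

lemma order_one : lolly.order 1 = 1 := by
  unfold NetType.order
  decide

lemma build : S_build := by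
  intro hsym hsmooth c μ S l φ k W Z x y D T hT
  have hS : 0 < S := lt_trans D.l_pos D.l_lt
  have hl := D.l_pos
  have hlS : |l| ≤ S := by rw [abs_of_pos hl]; exact D.l_lt.le
  obtain ⟨sφ, sk, sW, sZ, sx, sy⟩ := hsym c μ S φ k W Z x y hS D.sol l hlS
  have xl := D.x_l
  have m0 : (0 : ℝ) ∈ Icc (0 : ℝ) 1 := ⟨le_rfl, zero_le_one⟩
  have m1 : (1 : ℝ) ∈ Icc (0 : ℝ) 1 := ⟨zero_le_one, le_rfl⟩
  have v0 : ((0 : Fin 2) : ℕ) = 0 := rfl
  have v1 : ((1 : Fin 2) : ℕ) = 1 := rfl
  have a0 : l * (2 * 0 - 1) = -l := by ring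
  have a1 : l * (2 * 1 - 1) = l := by ring
  -- values at the vertex
  have val : ∀ (t : ℝ) (i b : Fin 2), lolly.vert i b = 0 →
      dropCurve c T l x y i t (b : ℕ) = ⟨0, y l + c * t⟩ := by
    intro t i b h
    rcases vert_zero h with ⟨rfl, rfl⟩ | ⟨rfl, rfl⟩ | ⟨rfl, rfl⟩
    · simp only [dropCurve, if_true, v0, Nat.cast_zero, a0, sx, sy, xl, neg_zero]
    · simp only [dropCurve, if_true, v1, Nat.cast_one, a1, xl]
    · simp only [dropCurve, v0, Nat.cast_zero, zero_mul, add_zero, xl]
      rw [if_neg (by decide)]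
  have vtop : ∀ t : ℝ, dropCurve c T l x y 1 t 1 = ⟨0, y l + c * T⟩ := by
    intro t
    simp only [dropCurve]
    rw [if_neg (by decide), xl]
    apply Complex.ext
    · rfl
    · simp only; ring
  have hsm := hsmooth c μ S φ k W Z x y hS D.sol
  have hfun : ∀ f g : ℝ × ℝ → ℝ, ∀ s : Set (ℝ × ℝ), ContDiffOn ℝ ∞ f s → ContDiffOn ℝ ∞ g s →
      ContDiffOn ℝ ∞ (fun p => (⟨f p, g p⟩ : ℂ)) s := by
    intro f g s hf hg
    have h1 : (fun p => (⟨f p, g p⟩ : ℂ)) = fun p => Complex.equivRealProdCLM.symm (f p, g p) := by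
      funext p; rfl
    rw [h1]
    exact Complex.equivRealProdCLM.symm.contDiff.comp_contDiffOn (hf.prodMk hg)
  have hcon : ∀ i, ContDiffOn ℝ ∞ (fun p : ℝ × ℝ => dropCurve c T l x y i p.1 p.2)
      (Ico 0 T ×ˢ Icc 0 1) := by
    intro i
    rcases (by fin_cases i <;> simp : i = 0 ∨ i = 1) with rfl | rfl
    · have e : (fun p : ℝ × ℝ => dropCurve c T l x y 0 p.1 p.2) = fun p =>
          (⟨x (l * (2 * p.2 - 1)), y (l * (2 * p.2 - 1)) + c * p.1⟩ : ℂ) := by
        funext p; simp [dropCurve]
      rw [e]
      have hmap : MapsTo (fun p : ℝ × ℝ => l * (2 * p.2 - 1)) (Ico 0 T ×ˢ Icc 0 1)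
          (Icc (-S) S) := fun p hp => abs_le.1 (abs_le_S hl D.l_lt hp.2)
      have hlin : ContDiffOn ℝ ∞ (fun p : ℝ × ℝ => l * (2 * p.2 - 1)) (Ico 0 T ×ˢ Icc 0 1) := by
        fun_prop
      apply hfun
      · exact hsm.2.1.comp hlin hmap
      · exact (hsm.2.2.comp hlin hmap).add (by fun_prop)
    · have e : (fun p : ℝ × ℝ => dropCurve c T l x y 1 p.1 p.2) = fun p =>
          (⟨x l, y l + c * p.1 + p.2 * (c * (T - p.1))⟩ : ℂ) := by
        funext p; simp [dropCurve]
      rw [e]
      apply hfun
      · fun_prop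
      · fun_prop
  have P0 : ∀ t, _ := fun t => par_loop (T := T) D t
  have P1 : ∀ t < T, _ := fun t ht => par_seg (x := x) (y := y) (l := l) D.c_pos ht
  exact
    { order_junction := by
        intro v hv
        rcases (by fin_cases v <;> simp : v = 0 ∨ v = 1) with rfl | rfl
        · rw [order_zero]; norm_num
        · rw [kind_one] at hv; cases hv
      order_navier := by
        intro v hv
        rcases (by fin_cases v <;> simp : v = 0 ∨ v = 1) with rfl | rfl
        · rw [kind_zero] at hv; cases hv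
        · exact order_one
      smooth := hcon
      regular := by
        intro i t ht r hr
        rcases (by fin_cases i <;> simp : i = 0 ∨ i = 1) with rfl | rfl
        · exact (P0 t).deriv_ne hr
        · exact (P1 t ht.2).deriv_ne hr
      connected := by
        intro t ht
        have hc : ∀ i, ContinuousOn (dropCurve c T l x y i t) (Icc 0 1) := by
          intro i
          have := (hcon i).continuousOn.comp (s := Icc 0 1) (f := fun r : ℝ => (t, r))
            (by fun_prop) (fun r hr => ⟨ht, hr⟩)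
          exact this
        have e : (⋃ i, dropCurve c T l x y i t '' Icc 0 1) =
            dropCurve c T l x y 0 t '' Icc 0 1 ∪ dropCurve c T l x y 1 t '' Icc 0 1 := by
          ext z
          simp only [mem_iUnion, mem_union, Fin.exists_fin_two]
        rw [e]
        apply IsConnected.union
        · refine ⟨⟨0, y l + c * t⟩, ⟨1, m1, ?_⟩, ⟨0, m0, ?_⟩⟩
          · have := val t 0 1 (by simp [lolly])
            rw [v1, Nat.cast_one] at this
            exact this
          · have := val t 1 0 (by simp [lolly])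
            rw [v0, Nat.cast_zero] at this
            exact this
        · exact (isConnected_Icc zero_le_one).image _ (hc 0)
        · exact (isConnected_Icc zero_le_one).image _ (hc 1)
      concurrent := by
        intro t ht i j b d h
        by_cases h0 : lolly.vert i b = 0
        · rw [val t i b h0, val t j d (h ▸ h0)]
        · obtain ⟨rfl, rfl⟩ := vert_ne h0
          obtain ⟨rfl, rfl⟩ := vert_ne (fun h1 => h0 (h.trans h1))
          rfl
      flow := by
        intro i t ht r hr
        have hu : UniqueDiffWithinAt ℝ (Ico 0 T) t := uniqueDiffOn_Ico 0 T t ht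
        rcases (by fin_cases i <;> simp : i = 0 ∨ i = 1) with rfl | rfl
        · rw [(P0 t).ddcurv_eq hr, (P0 t).curv_eq hr, (P0 t).nu_eq hr]
          have hd : derivWithin (fun u => dropCurve c T l x y 0 u r) (Ico 0 T) t = ⟨0, c⟩ := by
            have e : (fun u => dropCurve c T l x y 0 u r) = fun u =>
                (⟨x (l * (2 * r - 1)), y (l * (2 * r - 1)) + c * u⟩ : ℂ) := by
              funext p; simp [dropCurve]
            rw [e]
            apply HasDerivWithinAt.derivWithin _ hu
            apply mk_deriv (hasDerivWithinAt_const _ _ _)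
            have := ((hasDerivAt_id t).const_mul c).const_add (y (l * (2 * r - 1)))
            refine this.hasDerivWithinAt.congr_deriv ?_
            ring
          rw [hd]
          have hs := abs_le_S hl D.l_lt hr
          have en := energy hS D.sol hs
          unfold dot
          simp only [if_true]
          linear_combination (k (l * (2 * r - 1))) * en
        · rw [(P1 t ht.2).ddcurv_eq hr, (P1 t ht.2).curv_eq hr, (P1 t ht.2).nu_eq hr]
          have hd : derivWithin (fun u => dropCurve c T l x y 1 u r) (Ico 0 T) t =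
              ⟨0, c - r * c⟩ := by
            have e : (fun u => dropCurve c T l x y 1 u r) = fun u =>
                (⟨x l, y l + c * u + r * (c * (T - u))⟩ : ℂ) := by
              funext p; simp [dropCurve]
            rw [e]
            apply HasDerivWithinAt.derivWithin _ hu
            apply mk_deriv (hasDerivWithinAt_const _ _ _)
            have g1 := ((hasDerivAt_id t).const_mul c).const_add (y l)
            have g2 := ((((hasDerivAt_id t).const_sub T).const_mul c).const_mul r)
            refine (g1.add g2).hasDerivWithinAt.congr_deriv ?_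
            ring
          rw [hd]
          unfold dot
          simp only
          rw [Real.cos_pi_div_two]
          ring
      natural_curv := by
        intro t ht i b _
        rcases (by fin_cases i <;> simp : i = 0 ∨ i = 1) with rfl | rfl
        · rcases (by fin_cases b <;> simp : b = 0 ∨ b = 1) with rfl | rfl
          · rw [v0, Nat.cast_zero, (P0 t).curv_eq m0]
            rw [a0, sk, D.k_l]
          · rw [v1, Nat.cast_one, (P0 t).curv_eq m1]
            rw [a1, D.k_l]
        · have hb : (((b : ℕ) : ℝ)) ∈ Icc (0 : ℝ) 1 := by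
            rcases (by fin_cases b <;> simp : b = 0 ∨ b = 1) with rfl | rfl
            · rw [v0, Nat.cast_zero]; exact m0
            · rw [v1, Nat.cast_one]; exact m1
          rw [(P1 t ht.2).curv_eq hb]
      natural_force := by
        intro t ht v hv
        rcases (by fin_cases v <;> simp : v = 0 ∨ v = 1) with rfl | rfl
        · rw [Fintype.sum_prod_type, Fin.sum_univ_two, Fin.sum_univ_two, Fin.sum_univ_two]
          have q00 : lolly.vert 0 0 = 0 := by simp [lolly]
          have q01 : lolly.vert 0 1 = 0 := by simp [lolly]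
          have q10 : lolly.vert 1 0 = 0 := by simp [lolly]
          have q11 : lolly.vert 1 1 = 1 := by simp [lolly]
          have hne : ¬ ((1 : Fin 2) = 0) := by decide
          simp only [v0, v1, Nat.cast_zero, Nat.cast_one, q00, q01, q10, q11, hne, if_true,
            if_false]
          rw [(P0 t).stress_eq m0, (P0 t).stress_eq m1, (P1 t ht.2).stress_eq m0]
          simp only [a0, a1, sk, sφ, sZ, sW, D.k_l, Real.sin_neg, Real.cos_neg,
            Real.cos_pi_div_two, Real.sin_pi_div_two]
          have t1 := Real.sin_sq_add_cos_sq (φ l)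
          have en := energy hS D.sol hlS
          rw [D.k_l] at en
          apply Complex.ext
          · simp only [Complex.add_re, Complex.smul_re, smul_eq_mul, Complex.zero_re]
            ring
          · simp only [Complex.add_im, Complex.smul_im, smul_eq_mul, Complex.zero_im]
            ring_nf
            ring_nf at en t1
            linear_combination (2 * Real.sin (φ l)) * en - 2 * W l * t1
        · rw [kind_one] at hv; cases hv
      nondegenerate := by
        intro t ht v hv
        rcases (by fin_cases v <;> simp : v = 0 ∨ v = 1) with rfl | rfl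
        · refine ⟨0, 1, 1, 0, by simp [lolly], by simp [lolly], ?_⟩
          rw [v0, v1, Nat.cast_zero, Nat.cast_one, (P0 t).tau_eq m1, (P1 t ht.2).nu_eq m0]
          unfold dot
          simp only
          rw [a1, Real.cos_pi_div_two, Real.sin_pi_div_two]
          intro h
          apply D.cos_l
          linarith
        · rw [kind_one] at hv; cases hv
      fixed := by
        intro t ht i b h
        have h0 : lolly.vert i b ≠ 0 := by
          intro h1
          apply h
          rw [h1, kind_zero]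
        obtain ⟨rfl, rfl⟩ := vert_ne h0
        rw [v1, Nat.cast_one, vtop, vtop]
      clamped := by
        intro t ht i b h
        rcases (by fin_cases i <;> fin_cases b <;> simp [lolly] :
          lolly.vert i b = 0 ∨ lolly.vert i b = 1) with h1 | h1
        · rw [h1, kind_zero] at h; cases h
        · rw [h1, kind_one] at h; cases h }

lemma len : S_len := by
  intro c T l x y hc t ht
  unfold length
  have h := par_seg (x := x) (y := y) (l := l) hc ht
  have : ∫ r in (0 : ℝ)..1, ‖derivWithin (dropCurve c T l x y 1 t) (Icc 0 1) r‖ =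
      ∫ r in (0 : ℝ)..1, c * (T - t) := by
    apply intervalIntegral.integral_congr
    intro r hr
    rw [uIcc_of_le zero_le_one] at hr
    exact h.norm_eq hr
  rw [this]
  simp

theorem main : S_build ∧ S_len := ⟨build, len⟩

end Pool.Agent.W753.EN.Build
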