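import Mathlib
import Pool.Agent.W785.EN.Stms

/-!
Lengths of the curves do not tend to zero inside the interval of existence.
-/

set_option autoImplicit false

open Set Filter Topology MeasureTheory
open scoped ContDiff

namespace Pool.Agent.W753.EN.Noext

open Pool.Agent.W785.EN

lemma dist_le_length {g : ℝ → ℂ} (hg : ContDiffOn ℝ 1 g (Icc 0 1)) {x : ℝ}
    (hx : x ∈ Icc (0 : ℝ) 1) : ‖g x - g 0‖ ≤ length g := by
  have hc : ContinuousOn (derivWithin g (Icc 0 1)) (Icc 0 1) :=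
    hg.continuousOn_derivWithin (uniqueDiffOn_Icc zero_lt_one) le_rfl
  have hi : ∀ a b : ℝ, a ∈ Icc (0 : ℝ) 1 → b ∈ Icc (0 : ℝ) 1 →
      IntervalIntegrable (derivWithin g (Icc 0 1)) volume a b := by
    intro a b ha hb
    apply ContinuousOn.intervalIntegrable
    apply hc.mono
    exact Set.uIcc_subset_Icc ha hb
  have h0 : (0 : ℝ) ∈ Icc (0 : ℝ) 1 := ⟨le_rfl, zero_le_one⟩
  have h1 : (1 : ℝ) ∈ Icc (0 : ℝ) 1 := ⟨zero_le_one, le_rfl⟩
  have key : ∫ y in (0 : ℝ)..x, derivWithin g (Icc 0 1) y = g x - g 0 := by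
    apply intervalIntegral.integral_eq_sub_of_hasDerivAt_of_le hx.1
    · exact hg.continuousOn.mono (Icc_subset_Icc le_rfl hx.2)
    · intro y hy
      have hy2 : y ∈ Icc (0 : ℝ) 1 := ⟨hy.1.le, hy.2.le.trans hx.2⟩
      have hd : DifferentiableWithinAt ℝ g (Icc 0 1) y := (hg.differentiableOn one_ne_zero) y hy2
      exact hd.hasDerivWithinAt.hasDerivAt (Icc_mem_nhds hy.1 (lt_of_lt_of_le hy.2 hx.2))
    · exact hi 0 x h0 hx
  rw [← key]
  refine (intervalIntegral.norm_integral_le_integral_norm hx.1).trans ?_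
  unfold length
  have hs := intervalIntegral.integral_add_adjacent_intervals (hi 0 x h0 hx).norm
    (hi x 1 hx h1).norm
  rw [← hs]
  have : 0 ≤ ∫ y in x..1, ‖derivWithin g (Icc 0 1) y‖ :=
    intervalIntegral.integral_nonneg hx.2 (fun _ _ => norm_nonneg _)
  linarith

theorem main : S_noext := by
  intro N M G μ T T' γ hT hTT h i hlim
  have hTm : T ∈ Ico 0 T' := ⟨hT.le, hTT⟩
  have hhalf : (1 / 2 : ℝ) ∈ Icc (0 : ℝ) 1 := ⟨by norm_num, by norm_num⟩
  -- there is a point with a value different from the value at `0`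
  obtain ⟨x, hx, hne⟩ : ∃ x ∈ Icc (0 : ℝ) 1, γ i T x ≠ γ i T 0 := by
    by_contra hc
    push Not at hc
    apply h.regular i T hTm (1 / 2) hhalf
    rw [derivWithin_congr (f := fun _ => γ i T 0) (fun y hy => hc y hy) (hc _ hhalf)]
    simp
  have hsm : ∀ t ∈ Ico 0 T', ContDiffOn ℝ 1 (γ i t) (Icc 0 1) := by
    intro t ht
    have h1 := (h.smooth i).comp (s := Icc (0 : ℝ) 1) (f := fun x : ℝ => (t, x))
      (contDiff_const.prodMk contDiff_id).contDiffOn (fun x hx => ⟨ht, hx⟩)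
    exact h1.of_le (by exact_mod_cast le_top)
  have hle : ∀ t ∈ Ico 0 T', ‖γ i t x - γ i t 0‖ ≤ length (γ i t) := fun t ht =>
    dist_le_length (hsm t ht) hx
  have hcont : ∀ y ∈ Icc (0 : ℝ) 1, Tendsto (fun t => γ i t y) (𝓝[<] T) (𝓝 (γ i T y)) := by
    intro y hy
    have h1 : ContinuousOn (fun t => γ i t y) (Ico 0 T') := by
      have := (h.smooth i).continuousOn.comp (s := Ico 0 T') (f := fun t : ℝ => (t, y))
        (by fun_prop) (fun t ht => ⟨ht, hy⟩)
      exact this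
    have h2 : ContinuousWithinAt (fun t => γ i t y) (Ioo 0 T) T :=
      (h1 T hTm).mono (fun t ht => ⟨ht.1.le, ht.2.trans hTT⟩)
    rw [ContinuousWithinAt, nhdsWithin_Ioo_eq_nhdsLT hT] at h2
    exact h2
  have h1 : Tendsto (fun t => ‖γ i t x - γ i t 0‖) (𝓝[<] T) (𝓝 ‖γ i T x - γ i T 0‖) :=
    ((hcont x hx).sub (hcont 0 ⟨le_rfl, zero_le_one⟩)).norm
  have h2 : ∀ᶠ t in 𝓝[<] T, ‖γ i t x - γ i t 0‖ ≤ length (γ i t) := by
    have : Ioo 0 T ∈ 𝓝[<] T := Ioo_mem_nhdsLT hT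
    filter_upwards [this] with t ht
    exact hle t ⟨ht.1.le, ht.2.trans hTT⟩
  have h3 := le_of_tendsto_of_tendsto h1 hlim h2
  have h4 : ‖γ i T x - γ i T 0‖ = 0 := le_antisymm h3 (norm_nonneg _)
  exact hne (sub_eq_zero.1 (norm_eq_zero.1 h4))

end Pool.Agent.W753.EN.Noext
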